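import Pool.Agent.H370R2.Digamma

/-!
The series of the digamma function with Euler's constant (for WP-EF2).
-/

open Complex Filter Topology Set

namespace Pool.Agent.W45.WP

/-- terms of the digamma series -/
noncomputable def dg (n : ℕ) (z : ℂ) : ℂ := 1 / ((n : ℂ) + 1) - 1 / (z + (n + 1))

lemma dg_eq (n : ℕ) {z : ℂ} (hz : 0 < z.re) :
    dg n z = z / (((n : ℂ) + 1) * (z + (n + 1))) := by
  unfold dg
  have h1 : ((n : ℂ) + 1) ≠ 0 := by exact_mod_cast Nat.succ_ne_zero n
  have h2 : z + ((n : ℂ) + 1) ≠ 0 := by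
    intro h
    have := congrArg re h
    simp only [add_re, natCast_re, one_re, zero_re] at this
    have hn : (0 : ℝ) ≤ n := Nat.cast_nonneg n
    linarith
  field_simp
  ring

lemma norm_dg_le (n : ℕ) {z : ℂ} (hz : 0 < z.re) : ‖dg n z‖ ≤ ‖z‖ * (1 / ((n : ℝ) + 1) ^ 2) := by
  rw [dg_eq n hz, norm_div, norm_mul]
  have hn : (0 : ℝ) ≤ n := Nat.cast_nonneg n
  have h1 : ‖((n : ℂ) + 1)‖ = (n : ℝ) + 1 := by
    have : ((n : ℂ) + 1) = ((n + 1 : ℝ) : ℂ) := by push_cast; ring
    rw [this, Complex.norm_real, Real.norm_eq_abs, abs_of_nonneg (by positivity)]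
  have h2 : (n : ℝ) + 1 ≤ ‖z + ((n : ℂ) + 1)‖ := by
    refine le_trans ?_ (re_le_norm _)
    simp only [add_re, natCast_re, one_re]
    linarith
  rw [h1, div_eq_mul_one_div]
  apply mul_le_mul_of_nonneg_left _ (norm_nonneg _)
  apply one_div_le_one_div_of_le (by positivity)
  rw [sq]
  exact mul_le_mul_of_nonneg_left h2 (by positivity)

lemma summable_dg {z : ℂ} (hz : 0 < z.re) : Summable (fun n => dg n z) :=
  Summable.of_norm_bounded (H370.DG.summable_inv_sq.mul_left ‖z‖) fun n => norm_dg_le n hz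

lemma partial_gd (z : ℂ) (M : ℕ) : ∑ n ∈ Finset.range M, H370.DG.gd n z =
    (((Real.log ((M + 1 : ℕ) : ℝ) - harmonic (M + 1) : ℝ)) : ℂ) + 1 / (z + 1) +
      ∑ n ∈ Finset.range (M + 1), dg n z := by
  induction M with
  | zero =>
    simp [dg]
  | succ M ih =>
    rw [Finset.sum_range_succ, ih, Finset.sum_range_succ _ (M + 1)]
    unfold H370.DG.gd dg
    rw [Real.log_div (by positivity) (by positivity), harmonic_succ (M + 1)]
    push_cast
    rw [show (M : ℂ) + 1 + 1 = M + 2 by ring, show (M : ℝ) + 1 + 1 = M + 2 by ring, one_div]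
    ring

theorem logDeriv_Gamma_eq {z : ℂ} (hz : 0 < z.re) :
    logDeriv Gamma z = -(Real.eulerMascheroniConstant : ℂ) - 1 / z + ∑' n, dg n z := by
  rw [H370.DG.logDeriv_Gamma hz]
  have h1 := (H370.DG.summable_gd (s := z) (by linarith)).hasSum.tendsto_sum_nat
  have h2 := ((summable_dg hz).hasSum.tendsto_sum_nat).comp (tendsto_add_atTop_nat 1)
  have h3 : Tendsto (fun M : ℕ => (((Real.log ((M + 1 : ℕ) : ℝ) - harmonic (M + 1) : ℝ)) : ℂ))
      atTop (𝓝 ((-Real.eulerMascheroniConstant : ℝ) : ℂ)) := by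
    refine (continuous_ofReal.tendsto _).comp ?_
    have h := (Real.tendsto_harmonic_sub_log.comp (tendsto_add_atTop_nat 1)).neg
    refine h.congr fun M => ?_
    simp only [Function.comp_apply]
    ring
  have h4 := (h3.add_const (1 / (z + 1))).add h2
  have h5 : ∑' n, H370.DG.gd n z =
      ((-Real.eulerMascheroniConstant : ℝ) : ℂ) + 1 / (z + 1) + ∑' n, dg n z := by
    refine tendsto_nhds_unique h1 (h4.congr fun M => ?_)
    rw [partial_gd z M]
    rfl
  rw [h5]
  push_cast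
  ring

end Pool.Agent.W45.WP
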