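import Mathlib

/-!
Fourier analysis of compactly supported `C²` functions on the line `Re s = 3/2` (for WP-EF2).
-/

open Complex Filter Topology Set MeasureTheory FourierTransform

namespace Pool.Agent.W45.WP

/-- `∫ φ(u) exp(i v u) du` -/
noncomputable def HH (φ : ℝ → ℂ) (v : ℝ) : ℂ := ∫ u : ℝ, φ u * cexp (v * u * I)

theorem HH_eq (φ : ℝ → ℂ) (v : ℝ) : HH φ v = 𝓕 φ (-(v / (2 * Real.pi))) := by
  rw [Real.fourier_real_eq_integral_exp_smul]
  unfold HH
  congr 1
  funext u
  rw [smul_eq_mul, mul_comm]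
  congr 2
  push_cast
  field_simp

theorem HH_eq' (φ : ℝ → ℂ) (w : ℝ) : HH φ (2 * Real.pi * w) = 𝓕⁻ φ w := by
  rw [HH_eq, Real.fourierInv_eq_fourier_neg]
  congr 1
  field_simp

section
variable {φ : ℝ → ℂ}

theorem HH_continuous (hφ : ContDiff ℝ 2 φ) (hc : HasCompactSupport φ) : Continuous (HH φ) := by
  have hint : Integrable φ := hφ.continuous.integrable_of_hasCompactSupport hc
  have h1 : Continuous (𝓕 φ) :=
    VectorFourier.fourierIntegral_continuous Real.continuous_fourierChar
      (by exact continuous_inner) hint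
  have h2 : HH φ = fun v => 𝓕 φ (-(v / (2 * Real.pi))) := funext fun v => HH_eq φ v
  rw [h2]
  exact h1.comp (by fun_prop)

theorem iter_compact (hφ : ContDiff ℝ 2 φ) (hc : HasCompactSupport φ) (n : ℕ) (hn : n ≤ 2) :
    Integrable (iteratedDeriv n φ) := by
  have h1 : Continuous (iteratedDeriv n φ) := by
    refine hφ.continuous_iteratedDeriv n ?_
    exact_mod_cast hn
  have h2 : HasCompactSupport (iteratedDeriv n φ) := by
    have : ∀ m : ℕ, HasCompactSupport (iteratedDeriv m φ) := by
      intro m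
      induction m with
      | zero => simpa using hc
      | succ m ih =>
        rw [iteratedDeriv_succ]
        exact ih.deriv
    exact this n
  exact h1.integrable_of_hasCompactSupport h2

theorem HH_bound (hφ : ContDiff ℝ 2 φ) (hc : HasCompactSupport φ) :
    ∃ C : ℝ, 0 ≤ C ∧ ∀ v, ‖HH φ v‖ ≤ C * (1 + v ^ 2)⁻¹ := by
  refine ⟨(∫ u, ‖φ u‖) + ∫ u, ‖iteratedDeriv 2 φ u‖, by positivity, fun v => ?_⟩
  have h0 : ‖HH φ v‖ ≤ ∫ u, ‖φ u‖ := by
    rw [HH_eq]
    exact VectorFourier.norm_fourierIntegral_le_integral_norm _ _ _ _ _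
  have h1 : ‖𝓕 (iteratedDeriv 2 φ) (-(v / (2 * Real.pi)))‖ ≤ ∫ u, ‖iteratedDeriv 2 φ u‖ :=
    VectorFourier.norm_fourierIntegral_le_integral_norm _ _ _ _ _
  have h2 := Real.fourier_iteratedDeriv (N := 2) (n := 2) hφ
    (fun n hn => iter_compact hφ hc n (by exact_mod_cast hn)) le_rfl
  rw [h2] at h1
  simp only [norm_smul, norm_pow, norm_mul, Complex.norm_real, Complex.norm_I, mul_one,
    Complex.norm_ofNat, norm_neg, norm_div, Real.norm_eq_abs] at h1
  rw [← HH_eq] at h1
  have h3 : (2 * |Real.pi| * (|v| / (|2| * |Real.pi|))) ^ 2 = v ^ 2 := by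
    have hpi := Real.pi_pos
    rw [abs_of_pos Real.pi_pos, abs_of_pos (show (0:ℝ) < 2 by norm_num)]
    have : 2 * Real.pi * (|v| / (2 * Real.pi)) = |v| := by field_simp
    rw [this]
    exact sq_abs v
  rw [h3] at h1
  rw [← div_eq_mul_inv, le_div_iff₀ (by positivity)]
  nlinarith [norm_nonneg (HH φ v)]

theorem HH_integrable (hφ : ContDiff ℝ 2 φ) (hc : HasCompactSupport φ) : Integrable (HH φ) := by
  obtain ⟨C, hC, h⟩ := HH_bound hφ hc
  refine Integrable.mono' (integrable_inv_one_add_sq.const_mul C)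
    (HH_continuous hφ hc).aestronglyMeasurable ?_
  exact Eventually.of_forall fun v => h v

/-- Fourier inversion -/
theorem inversion (hφ : ContDiff ℝ 2 φ) (hc : HasCompactSupport φ) (l : ℝ) :
    ((1 / (2 * Real.pi) : ℝ) : ℂ) * ∫ v : ℝ, HH φ v * cexp (-(v * l * I)) = φ l := by
  have hint : Integrable φ := hφ.continuous.integrable_of_hasCompactSupport hc
  have hF : Integrable (𝓕 φ) := by
    have h1 := (HH_integrable hφ hc).comp_mul_left' (R := -(2 * Real.pi)) (by
      have := Real.pi_pos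
      intro h
      linarith)
    refine h1.congr (Eventually.of_forall fun w => ?_)
    simp only
    rw [HH_eq]
    congr 1
    field_simp
  have h := congrFun (hφ.continuous.fourier_fourierInv_eq hint hF) l
  rw [Real.fourier_real_eq_integral_exp_smul] at h
  rw [← h]
  have h2 : ∀ w : ℝ, cexp (↑(-2 * Real.pi * w * l) * I) • 𝓕⁻ φ w =
      (fun v : ℝ => HH φ v * cexp (-(v * l * I))) (2 * Real.pi * w) := by
    intro w
    simp only
    rw [HH_eq', smul_eq_mul, mul_comm]
    congr 2
    push_cast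
    ring
  simp_rw [h2]
  rw [Measure.integral_comp_mul_left (fun v : ℝ => HH φ v * cexp (-(v * l * I))) (2 * Real.pi)]
  rw [abs_of_pos (by positivity), Complex.real_smul]
  congr 1
  push_cast
  rw [one_div]

theorem inversion0 (hφ : ContDiff ℝ 2 φ) (hc : HasCompactSupport φ) :
    ((1 / (2 * Real.pi) : ℝ) : ℂ) * ∫ v : ℝ, HH φ v = φ 0 := by
  rw [← inversion hφ hc 0]
  simp

/-- the point `3/2 + i v` -/
noncomputable def sp (v : ℝ) : ℂ := 3 / 2 + v * I

theorem sp_re (v : ℝ) : (sp v).re = 3 / 2 := by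
  simp [sp]

/-- the resolvent formula -/
theorem resolvent (hφ : ContDiff ℝ 2 φ) (hc : HasCompactSupport φ) {z : ℂ} (hz : z.re < 3 / 2) :
    ((1 / (2 * Real.pi) : ℝ) : ℂ) * ∫ v : ℝ, HH φ v * (1 / (sp v - z)) =
      ∫ l in Ioi (0 : ℝ), φ l * cexp ((z - 3 / 2) * l) := by
  have h1 : ∀ v : ℝ, 1 / (sp v - z) = ∫ l : ℝ in Ioi (0 : ℝ), cexp (-(sp v - z) * l) := by
    intro v
    rw [integral_exp_mul_complex_Ioi (by rw [neg_re, sub_re, sp_re]; linarith) 0]
    simp only [ofReal_zero, mul_zero, exp_zero]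
    rw [neg_div_neg_eq]
  have hmeas : Integrable (Function.uncurry fun (v l : ℝ) => HH φ v * cexp (-(sp v - z) * l))
      (volume.prod (volume.restrict (Ioi (0 : ℝ)))) := by
    have h2 : Integrable (fun p : ℝ × ℝ => HH φ p.1 * cexp ((z - 3 / 2) * p.2))
        (volume.prod (volume.restrict (Ioi (0 : ℝ)))) :=
      (HH_integrable hφ hc).mul_prod
        (integrableOn_exp_mul_complex_Ioi (a := z - 3 / 2) (by
          rw [sub_re]; norm_num; linarith) 0)
    refine Integrable.mono h2 ?_ ?_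
    · apply Continuous.aestronglyMeasurable
      have := HH_continuous hφ hc
      unfold Function.uncurry sp
      fun_prop
    · refine Eventually.of_forall fun p => le_of_eq ?_
      simp only [Function.uncurry, norm_mul, Complex.norm_exp]
      congr 2
      simp only [sp, neg_sub, mul_re, sub_re, add_re, ofReal_re, ofReal_im, I_re, I_im, mul_zero,
        mul_one, sub_zero, zero_mul, sub_im, add_im]
      ring
  have h3 : ∫ v : ℝ, HH φ v * (1 / (sp v - z)) =
      ∫ v : ℝ, ∫ l in Ioi (0 : ℝ), HH φ v * cexp (-(sp v - z) * l) := by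
    congr 1
    funext v
    rw [h1 v, ← integral_const_mul]
  rw [h3, integral_integral_swap hmeas, ← integral_const_mul]
  congr 1
  funext l
  rw [← inversion hφ hc l, mul_assoc, ← integral_mul_const]
  congr 2
  funext v
  rw [mul_assoc, ← Complex.exp_add]
  congr 2
  unfold sp
  ring

end

end Pool.Agent.W45.WP
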